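import Pool.Agent.Helper49.OT.Defs
import Pool.Agent.Helper84.PH.OTExcl

/-!
# A finite cover of the Oeljeklaus–Toma threefold is not a complex torus
-/

open scoped Manifold ContDiff Topology
open Set Filter Function

noncomputable section

namespace HolPH.OT

variable [IsCancelSMul Gam X] [ProperlyDiscontinuousSMul Gam X]
  {M' : Type*} [TopologicalSpace M'] [ChartedSpace C3 M'] {p : M' → M}

/-- A finite cover of `M` is not a complex torus (the facts on `pr` as hypotheses, to be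
instantiated with `pr_covering` and `pr_localDiffeomorph`). -/
theorem not_torus_of (pr_covering : IsCoveringMap pr)
    (pr_localDiffeomorph : IsLocalDiffeomorph I3 I3 ω pr) (hp : IsFiniteCover p) :
    ¬ IsComplexTorus M' := by
  rintro ⟨Λ, _, _, Ψ, hΨ, -, -⟩
  have hF : ContMDiff I3 I3 ω (fun a => p (Ψ a)) :=
    hp.localDiffeomorph.contMDiff.comp hΨ.contMDiff
  obtain ⟨F', hF', hF2⟩ := exists_holomorphic_lift (A := C3) pr_localDiffeomorph pr_covering
    pr_surjective hF
  have hζ : ContMDiff I3 𝓘(ℂ, ℂ) ω (fun x : X => (x : C3).1) := by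
    have h1 : ContMDiff I3 I3 ω (Subtype.val : X → C3) := contMDiff_subtype_val
    exact (contDiff_fst.contMDiff (𝕜 := ℂ) (n := ω)).comp h1
  have hconst : ∀ a b : C3, ((F' a : X) : C3).1 = ((F' b : X) : C3).1 :=
    fun a b => eq_of_im_pos hζ (fun x => x.2) hF' a b
  have hloc : IsLocalHomeomorph F' := by
    have h1 : IsLocalHomeomorph (pr ∘ F') := by
      have : pr ∘ F' = p ∘ Ψ := funext hF2
      rw [this]
      exact hp.localDiffeomorph.isLocalHomeomorph.comp hΨ.isLocalHomeomorph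
    exact h1.of_comp pr_covering.isLocalHomeomorph hF'.continuous
  have hopen : IsOpen (Subtype.val '' (range F') : Set C3) :=
    X.isOpen.isOpenMap_subtype_val _ hloc.isOpenMap.isOpen_range
  have h0 : ((F' 0 : X) : C3) ∈ Subtype.val '' (range F') := ⟨F' 0, ⟨0, rfl⟩, rfl⟩
  have hcont : Continuous (fun t : ℝ => ((F' 0 : X) : C3) + (((t : ℂ), 0, 0) : C3)) := by
    fun_prop
  have hev : ∀ᶠ t : ℝ in 𝓝 0, ((F' 0 : X) : C3) + (((t : ℂ), 0, 0) : C3)
      ∈ Subtype.val '' (range F') := by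
    refine hcont.continuousAt.eventually (hopen.mem_nhds ?_)
    have h00 : ((F' 0 : X) : C3) + ((((0 : ℝ) : ℂ), 0, 0) : C3) = ((F' 0 : X) : C3) := by
      rw [Complex.ofReal_zero]
      exact add_zero _
    change ((F' 0 : X) : C3) + ((((0 : ℝ) : ℂ), 0, 0) : C3) ∈ _
    rw [h00]
    exact h0
  obtain ⟨t, ht, htne⟩ := ((hev.filter_mono nhdsWithin_le_nhds).and
    (self_mem_nhdsWithin : ∀ᶠ t : ℝ in 𝓝[≠] 0, t ∈ ({0}ᶜ : Set ℝ))).exists
  obtain ⟨_, ⟨b, rfl⟩, hb⟩ := ht
  have h3 := hconst b 0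
  rw [hb] at h3
  have h4 : ((F' 0 : X) : C3).1 + (t : ℂ) = ((F' 0 : X) : C3).1 := h3
  have h5 : (t : ℂ) = 0 := by linear_combination h4
  exact htne (by exact_mod_cast h5)

end HolPH.OT
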